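import Pool.Agent.Helper61.NW.Goals
import Pool.Agent.Helper52.Wqo.Main
import Pool.Agent.Helper52.Wqo.Uni

/-!
# Project NW, packet INF: infinite generating sets
-/

set_option autoImplicit false

namespace Pool.Agent.Helper23.NW

open Pool.Agent.Helper52.Wq2 Pool.Agent.Helper61.NW
open Pool.Agent.Helper52.Wqo (Gen PreC cmp conn_normal complete_minor)

universe u

theorem no_free {Γ : Type*} [Group Γ] (h : Group.IsSolvable Γ) (a b : Γ) :
    ¬ Function.Injective (FreeGroup.lift (![a, b] : Fin 2 → Γ)) := by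
  intro hinj
  have h1 : Group.IsSolvable (FreeGroup (Fin 2)) := Group.isSolvable_of_isSolvable_injective hinj
  let σ : Equiv.Perm (Fin 5) := finRotate 5
  let τ : Equiv.Perm (Fin 5) := Equiv.swap 0 (σ 0)
  let φ : FreeGroup (Fin 2) →* Equiv.Perm (Fin 5) := FreeGroup.lift ![σ, τ]
  have hφ : Function.Surjective φ := by
    rw [← MonoidHom.range_eq_top, eq_top_iff,
      ← Equiv.Perm.closure_cycle_adjacent_swap (σ := σ) isCycle_finRotate support_finRotate 0,
      Subgroup.closure_le]
    rintro x (rfl | rfl)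
    · exact ⟨FreeGroup.of 0, by simp [φ]⟩
    · exact ⟨FreeGroup.of 1, by simp [φ, τ]⟩
  exact Equiv.Perm.not_isSolvable_fin_5 (Group.isSolvable_of_surjective hφ)

theorem infinite_center {Γ : Type*} [Group Γ] [Infinite Γ] (h : (Subgroup.center Γ).FiniteIndex) :
    (Subgroup.center Γ : Set Γ).Infinite := by
  have h1 := Subgroup.card_mul_index (Subgroup.center Γ)
  rw [Nat.card_eq_zero_of_infinite (α := Γ)] at h1
  rcases Nat.mul_eq_zero.1 h1 with h2 | h2
  · rcases Nat.card_eq_zero.1 h2 with h3 | h3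
    · exact (h3.false ⟨1, one_mem _⟩).elim
    · exact Set.infinite_coe_iff.1 h3
  · exact absurd h2 h.index_ne_zero

theorem inf : InfStmt.{u} := by
  intro Γ _ S hΓ hS hinf hyp
  have hG : Gen S := ⟨hS.1, hS.2.1⟩
  have hconn : ∀ F : Set Γ, F.Finite → ∀ a b, a ∉ F → b ∉ F → b ∈ cmp S F a := by
    intro F hF a b ha hb
    rcases hyp with hn | hc
    · have hsol : Group.IsSolvable Γ := inferInstance
      refine conn_normal hG hinf hF ha hb ⊤ inferInstance ?_ (Or.inl fun g _ h _ => no_free hsol g h)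
      rw [Subgroup.coe_top]
      exact Set.infinite_univ
    · refine conn_normal hG hinf hF ha hb (Subgroup.center Γ) inferInstance (infinite_center hc)
        (Or.inr ?_)
      have h1 : (Subgroup.centralizer (Subgroup.center Γ : Set Γ) : Set Γ) = Set.univ := by
        ext x
        simp only [SetLike.mem_coe, Set.mem_univ, iff_true]
        rw [Subgroup.mem_centralizer_iff]
        intro z hz
        exact (Subgroup.mem_center_iff.1 hz x).symm
      rw [h1]
      exact Set.infinite_univ
  obtain ⟨B, h1, h2, h3, h4⟩ := complete_minor hG hinf hconn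
  have hadj : ∀ a b : Γ, a⁻¹ * b ∈ S → (cay S).Adj a b := by
    intro a b hab
    unfold cay
    rw [SimpleGraph.fromRel_adj]
    refine ⟨?_, Or.inl hab⟩
    intro h
    apply hS.2.2
    rwa [h, inv_mul_cancel] at hab
  refine ⟨B, ?_, fun v w x hv hw => h3 v w x hv hw, ?_⟩
  · intro v
    refine ⟨h1 v, ?_⟩
    rintro A hA ⟨a, ha⟩ hcl b hb
    have key : ∀ c, Relation.ReflTransGen (fun x y => x⁻¹ * y ∈ S ∧ y ∈ B v) a c → c ∈ A := by
      intro c hc
      induction hc with
      | refl => exact ha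
      | tail _ hbc ih => exact hcl _ ih _ hbc.2 (hadj _ _ hbc.1)
    exact key b (h2 v a (hA ha) b hb)
  · intro v w hvw
    obtain ⟨a, ha, b, hb, hab⟩ := h4 v w hvw.ne
    exact ⟨a, ha, b, hb, hadj a b hab⟩

end Pool.Agent.Helper23.NW
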