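import Pool.Agent.Helper61.NW.Goals2
import Pool.Agent.Helper23.NW.INF

/-!
# Project NW+, packet IN3: infinite generating sets of virtually nilpotent groups
-/

set_option autoImplicit false

namespace Pool.Agent.Helper23.NW

open Pool.Agent.Helper52.Wq2 Pool.Agent.Helper61.NW
open Pool.Agent.Helper52.Wqo (Gen PreC cmp conn_normal complete_minor)

universe u

theorem no_free_sub {Γ : Type*} [Group Γ] {N : Subgroup Γ} (h : Group.IsSolvable N) (a b : Γ)
    (ha : a ∈ N) (hb : b ∈ N) : ¬ Function.Injective (FreeGroup.lift (![a, b] : Fin 2 → Γ)) := by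
  intro hinj
  apply no_free h ⟨a, ha⟩ ⟨b, hb⟩
  have hcomp : (FreeGroup.lift (![a, b] : Fin 2 → Γ)) =
      N.subtype.comp (FreeGroup.lift (![⟨a, ha⟩, ⟨b, hb⟩] : Fin 2 → N)) := by
    ext i
    fin_cases i <;> simp
  rw [hcomp] at hinj
  intro x y hxy
  apply hinj
  rw [MonoidHom.comp_apply, MonoidHom.comp_apply, hxy]

theorem infinite_of_finiteIndex {Γ : Type*} [Group Γ] [Infinite Γ] {N : Subgroup Γ}
    (h : N.FiniteIndex) : (N : Set Γ).Infinite := by
  have h1 := Subgroup.card_mul_index N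
  rw [Nat.card_eq_zero_of_infinite (α := Γ)] at h1
  rcases Nat.mul_eq_zero.1 h1 with h2 | h2
  · rcases Nat.card_eq_zero.1 h2 with h3 | h3
    · exact (h3.false ⟨1, one_mem _⟩).elim
    · exact Set.infinite_coe_iff.1 h3
  · exact absurd h2 h.index_ne_zero

/-- From connectivity to the complete minor. -/
theorem kn_of_conn {Γ : Type*} [Group Γ] {S : Set Γ} (hS : IsGen S) (hinf : S.Infinite)
    (hconn : ∀ F : Set Γ, F.Finite → ∀ a b, a ∉ F → b ∉ F → b ∈ cmp S F a) : KN (cay S) := by
  have hG : Gen S := ⟨hS.1, hS.2.1⟩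
  obtain ⟨B, h1, h2, h3, h4⟩ := complete_minor hG hinf hconn
  have hadj : ∀ a b : Γ, a⁻¹ * b ∈ S → (cay S).Adj a b := by
    intro a b hab
    unfold cay
    rw [SimpleGraph.fromRel_adj]
    refine ⟨?_, Or.inl hab⟩
    intro h
    apply hS.2.2
    rwa [h, inv_mul_cancel] at hab
  refine ⟨B, ?_, fun v w x hv hw => h3 v w x hv hw, ?_⟩
  · intro v
    refine ⟨h1 v, ?_⟩
    rintro A hA ⟨a, ha⟩ hcl b hb
    have key : ∀ c, Relation.ReflTransGen (fun x y => x⁻¹ * y ∈ S ∧ y ∈ B v) a c → c ∈ A := by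
      intro c hc
      induction hc with
      | refl => exact ha
      | tail _ hbc ih => exact hcl _ ih _ hbc.2 (hadj _ _ hbc.1)
    exact key b (h2 v a (hA ha) b hb)
  · intro v w hvw
    obtain ⟨a, ha, b, hb, hab⟩ := h4 v w hvw.ne
    exact ⟨a, ha, b, hb, hadj a b hab⟩

theorem in3 : In3Stmt.{u} := by
  rintro Γ _ S hΓ hS hinf ⟨N, hN, hnil⟩
  have hG : Gen S := ⟨hS.1, hS.2.1⟩
  refine kn_of_conn hS hinf ?_
  intro F hF a b ha hb
  have hsolN : Group.IsSolvable N := inferInstance
  have hsol : Group.IsSolvable N.normalCore :=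
    Group.isSolvable_of_isSolvable_injective (f := Subgroup.inclusion N.normalCore_le)
      (Subgroup.inclusion_injective _)
  exact conn_normal hG hinf hF ha hb N.normalCore inferInstance
    (infinite_of_finiteIndex inferInstance)
    (Or.inl fun g hg h hh => no_free_sub hsol g h hg hh)

end Pool.Agent.Helper23.NW
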